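import Mathlib

/-!
# Completeness at X_1(11): the finite check, part 1 (the 25 monomials with poles only at `O`)
-/

set_option autoImplicit false

namespace Pool.Agent.K4C.FC

/-- exponents of `x`, `x - 1`, `y`, `x + y`; coefficients of `1, x, y, x^2, x y` -/
def tab : List ((ℤ × ℤ × ℤ × ℤ) × (ℤ × ℤ × ℤ × ℤ × ℤ)) :=
  [((5, 2, -2, -1), (1, 1, 1, -1, 1)),
   ((3, 2, -1, -1), (-1, 0, -1, 1, 0)),
   ((1, 2, 0, -1), (1, -1, 1, 0, 0)),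
   ((0, 4, 1, -2), (-1, 3, 0, -2, 1)),
   ((2, 1, -1, 0), (1, 0, 1, 0, 0)),
   ((0, 1, 0, 0), (-1, 1, 0, 0, 0)),
   ((1, 3, 0, -1), (-1, 2, -1, -1, 1)),
   ((2, 2, -1, 0), (-1, 1, -1, 0, 1)),
   ((0, 2, 0, 0), (1, -2, 0, 1, 0)),
   ((1, 1, -1, 1), (1, -1, 1, 1, 0)),
   ((0, 1, -1, 2), (1, -2, 0, 2, 1)),
   ((1, 0, 0, 0), (0, 1, 0, 0, 0)),
   ((2, 2, 0, -1), (0, 1, 0, -1, 1)),
   ((0, 2, 1, -1), (0, -1, -1, 1, 0)),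
   ((3, 1, -1, 0), (0, 1, 0, 0, 1)),
   ((1, 1, 0, 0), (0, -1, 0, 1, 0)),
   ((0, 0, 0, 1), (0, 1, 1, 0, 0)),
   ((0, 1, 0, 1), (0, -1, -1, 1, 1)),
   ((2, 0, 0, 0), (0, 0, 0, 1, 0)),
   ((0, 0, 1, 0), (0, 0, 1, 0, 0)),
   ((0, 1, 1, 0), (0, 0, -1, 0, 1)),
   ((1, 0, 0, 1), (0, 0, 0, 1, 1)),
   ((1, 0, 1, 0), (0, 0, 0, 0, 1)),
   ((0, -1, 1, 1), (0, 0, 1, 1, 0)),
   ((0, -2, 2, 1), (0, 0, 1, 1, 1))]

/-- the orders at `P, 2P, 3P, 4P` -/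
def ods (q : ℤ × ℤ × ℤ × ℤ) : ℤ × ℤ × ℤ × ℤ :=
  (q.1 + 2 * q.2.2.1 + q.2.2.2, q.2.1 + 2 * q.2.2.2, q.2.1 + q.2.2.1, q.1)

/-- the range of the orders -/
def rg (n : ℤ × ℤ × ℤ × ℤ) : Prop :=
  0 ≤ n.1 ∧ 0 ≤ n.2.1 ∧ 0 ≤ n.2.2.1 ∧ 0 ≤ n.2.2.2 ∧
    1 ≤ n.1 + n.2.1 + n.2.2.1 + n.2.2.2 ∧ n.1 + n.2.1 + n.2.2.1 + n.2.2.2 ≤ 5

instance (n : ℤ × ℤ × ℤ × ℤ) : Decidable (rg n) := by unfold rg; infer_instance

lemma mem_aux : ∀ a : Fin 6, ∀ b : Fin 7, ∀ d : Fin 5, ∀ e : Fin 5,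
    rg (ods ((a.val : ℤ), (b.val : ℤ) - 2, (d.val : ℤ) - 2, (e.val : ℤ) - 2)) →
      ((a.val : ℤ), (b.val : ℤ) - 2, (d.val : ℤ) - 2, (e.val : ℤ) - 2) ∈ tab.map Prod.fst := by
  decide +kernel

lemma mem_tab (q : ℤ × ℤ × ℤ × ℤ) (h : rg (ods q)) : ∃ t ∈ tab, t.1 = q := by
  obtain ⟨a, b, d, e⟩ := q
  obtain ⟨h1, h2, h3, h4, h5, h6⟩ := h
  simp only [ods] at h1 h2 h3 h4 h5 h6
  have ha0 : 0 ≤ a := by omega
  have ha1 : a < 6 := by omega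
  have hb0 : 0 ≤ b + 2 := by omega
  have hb1 : b + 2 < 7 := by omega
  have hd0 : 0 ≤ d + 2 := by omega
  have hd1 : d + 2 < 5 := by omega
  have he0 : 0 ≤ e + 2 := by omega
  have he1 : e + 2 < 5 := by omega
  have key := mem_aux ⟨a.toNat, by omega⟩ ⟨(b + 2).toNat, by omega⟩ ⟨(d + 2).toNat, by omega⟩
    ⟨(e + 2).toNat, by omega⟩
  have ea : ((a.toNat : ℕ) : ℤ) = a := by omega
  have eb : (((b + 2).toNat : ℕ) : ℤ) - 2 = b := by omega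
  have ed : (((d + 2).toNat : ℕ) : ℤ) - 2 = d := by omega
  have ee : (((e + 2).toNat : ℕ) : ℤ) - 2 = e := by omega
  simp only [ea, eb, ed, ee] at key
  have h7 := key ⟨h1, h2, h3, h4, h5, h6⟩
  rw [List.mem_map] at h7
  exact h7

/-- the orders are disjoint, the degrees agree, the minors of the coefficients of `x, y, x^2, x y` are
zero -/
def cond (t t' : (ℤ × ℤ × ℤ × ℤ) × (ℤ × ℤ × ℤ × ℤ × ℤ)) : Prop :=
  (ods t.1).1 * (ods t'.1).1 = 0 ∧ (ods t.1).2.1 * (ods t'.1).2.1 = 0 ∧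
    (ods t.1).2.2.1 * (ods t'.1).2.2.1 = 0 ∧ (ods t.1).2.2.2 * (ods t'.1).2.2.2 = 0 ∧
    t.2.2.1 * t'.2.2.2.1 = t.2.2.2.1 * t'.2.2.1 ∧
    t.2.2.1 * t'.2.2.2.2.1 = t.2.2.2.2.1 * t'.2.2.1 ∧
    t.2.2.1 * t'.2.2.2.2.2 = t.2.2.2.2.2 * t'.2.2.1 ∧
    t.2.2.2.1 * t'.2.2.2.2.1 = t.2.2.2.2.1 * t'.2.2.2.1 ∧
    t.2.2.2.1 * t'.2.2.2.2.2 = t.2.2.2.2.2 * t'.2.2.2.1 ∧
    t.2.2.2.2.1 * t'.2.2.2.2.2 = t.2.2.2.2.2 * t'.2.2.2.2.1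

instance (t t' : (ℤ × ℤ × ℤ × ℤ) × (ℤ × ℤ × ℤ × ℤ × ℤ)) : Decidable (cond t t') := by
  unfold cond; infer_instance

instance decT : DecidableEq ((ℤ × ℤ × ℤ × ℤ) × (ℤ × ℤ × ℤ × ℤ × ℤ)) := instDecidableEqProd

/-- the four solutions -/
def res (t t' : (ℤ × ℤ × ℤ × ℤ) × (ℤ × ℤ × ℤ × ℤ × ℤ)) : Prop :=
    (t = ((1, 0, 0, 0), (0, 1, 0, 0, 0)) ∧ t' = ((0, 1, 0, 0), (-1, 1, 0, 0, 0))) ∨
    (t = ((0, 1, 0, 0), (-1, 1, 0, 0, 0)) ∧ t' = ((1, 0, 0, 0), (0, 1, 0, 0, 0))) ∨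
    (t = ((0, 0, 1, 0), (0, 0, 1, 0, 0)) ∧ t' = ((2, 1, -1, 0), (1, 0, 1, 0, 0))) ∨
    (t = ((2, 1, -1, 0), (1, 0, 1, 0, 0)) ∧ t' = ((0, 0, 1, 0), (0, 0, 1, 0, 0)))

instance (t t' : (ℤ × ℤ × ℤ × ℤ) × (ℤ × ℤ × ℤ × ℤ × ℤ)) : Decidable (res t t') := by
  unfold res; infer_instance

lemma cond_tab0 : (tab.all fun t => tab.all fun t' => !decide (cond t t') || decide (res t t')) = true := by
  decide +kernel

lemma cond_tab (t : _) (ht : t ∈ tab) (t' : _) (ht' : t' ∈ tab) (h : cond t t') : res t t' := by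
  have h1 := cond_tab0
  rw [List.all_eq_true] at h1
  have h2 := h1 t ht
  rw [List.all_eq_true] at h2
  have h3 := h2 t' ht'
  simpa [h] using h3

variable {F : Type*} [Field F]

lemma conv {x x1 y xy : F} (h0 : x ≠ 0) (h1 : x1 ≠ 0) (h2 : y ≠ 0) (h3 : xy ≠ 0)
    (a a' b b' d d' e e' : ℕ) (P : F)
    (h : x ^ a * x1 ^ b * y ^ d * xy ^ e = P * (x ^ a' * x1 ^ b' * y ^ d' * xy ^ e')) :
    x ^ ((a : ℤ) - a') * x1 ^ ((b : ℤ) - b') * y ^ ((d : ℤ) - d') * xy ^ ((e : ℤ) - e') = P := by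
  rw [zpow_sub₀ h0, zpow_sub₀ h1, zpow_sub₀ h2, zpow_sub₀ h3]
  simp only [zpow_natCast]
  have e1 : x ^ a / x ^ a' * (x1 ^ b / x1 ^ b') * (y ^ d / y ^ d') * (xy ^ e / xy ^ e') =
      (x ^ a * x1 ^ b * y ^ d * xy ^ e) / (x ^ a' * x1 ^ b' * y ^ d' * xy ^ e') := by
    field_simp
  rw [e1, h, mul_div_assoc, div_self (by exact mul_ne_zero (mul_ne_zero (mul_ne_zero (pow_ne_zero _ h0) (pow_ne_zero _ h1)) (pow_ne_zero _ h2)) (pow_ne_zero _ h3)), mul_one]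

/-- the value of the polynomial -/
def pv (x y : F) (v : ℤ × ℤ × ℤ × ℤ × ℤ) : F :=
  (v.1 : F) + v.2.1 * x + v.2.2.1 * y + v.2.2.2.1 * x ^ 2 + v.2.2.2.2 * (x * y)

variable {x y : F} (h0 : x ≠ 0) (h1 : x - 1 ≠ 0) (h2 : y ≠ 0) (h3 : x + y ≠ 0)
  (hE : y ^ 2 + y = x ^ 3 - x ^ 2)

include h0 h1 h2 h3 hE

lemma row0 : x ^ (5 : ℤ) * (x - 1) ^ (2 : ℤ) * y ^ (-2 : ℤ) * (x + y) ^ (-1 : ℤ) =
    pv x y (1, 1, 1, -1, 1) := by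
  have h := conv h0 h1 h2 h3 5 0 2 0 0 2 0 1
    (((1 : ℤ) : F) + ((1 : ℤ) : F) * x + ((1 : ℤ) : F) * y + ((-1 : ℤ) : F) * x ^ 2 + ((1 : ℤ) : F) * (x * y))
    (by push_cast; linear_combination ((-1)*y^2 + (-1)*x^1*y^1 + (-1)*x^1*y^2 + (1)*x^3 + (-1)*x^4) * hE)
  norm_num at h
  simp only [pv]
  norm_num
  all_goals linear_combination h

lemma row1 : x ^ (3 : ℤ) * (x - 1) ^ (2 : ℤ) * y ^ (-1 : ℤ) * (x + y) ^ (-1 : ℤ) =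
    pv x y (-1, 0, -1, 1, 0) := by
  have h := conv h0 h1 h2 h3 3 0 2 0 0 1 0 1
    (((-1 : ℤ) : F) + ((0 : ℤ) : F) * x + ((-1 : ℤ) : F) * y + ((1 : ℤ) : F) * x ^ 2 + ((0 : ℤ) : F) * (x * y))
    (by push_cast; linear_combination ((1)*y^1 + (1)*x^1 + (-1)*x^2) * hE)
  norm_num at h
  simp only [pv]
  norm_num
  all_goals linear_combination h

lemma row2 : x ^ (1 : ℤ) * (x - 1) ^ (2 : ℤ) * y ^ (0 : ℤ) * (x + y) ^ (-1 : ℤ) =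
    pv x y (1, -1, 1, 0, 0) := by
  have h := conv h0 h1 h2 h3 1 0 2 0 0 0 0 1
    (((1 : ℤ) : F) + ((-1 : ℤ) : F) * x + ((1 : ℤ) : F) * y + ((0 : ℤ) : F) * x ^ 2 + ((0 : ℤ) : F) * (x * y))
    (by push_cast; linear_combination ((-1)) * hE)
  norm_num at h
  simp only [pv]
  norm_num
  all_goals linear_combination h

lemma row3 : x ^ (0 : ℤ) * (x - 1) ^ (4 : ℤ) * y ^ (1 : ℤ) * (x + y) ^ (-2 : ℤ) =
    pv x y (-1, 3, 0, -2, 1) := by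
  have h := conv h0 h1 h2 h3 0 0 4 0 1 0 0 2
    (((-1 : ℤ) : F) + ((3 : ℤ) : F) * x + ((0 : ℤ) : F) * y + ((-2 : ℤ) : F) * x ^ 2 + ((1 : ℤ) : F) * (x * y))
    (by push_cast; linear_combination ((1) + (-2)*x^1 + (-1)*x^1*y^1) * hE)
  norm_num at h
  simp only [pv]
  norm_num
  all_goals linear_combination h

lemma row4 : x ^ (2 : ℤ) * (x - 1) ^ (1 : ℤ) * y ^ (-1 : ℤ) * (x + y) ^ (0 : ℤ) =
    pv x y (1, 0, 1, 0, 0) := by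
  have h := conv h0 h1 h2 h3 2 0 1 0 0 1 0 0
    (((1 : ℤ) : F) + ((0 : ℤ) : F) * x + ((1 : ℤ) : F) * y + ((0 : ℤ) : F) * x ^ 2 + ((0 : ℤ) : F) * (x * y))
    (by push_cast; linear_combination ((-1)) * hE)
  norm_num at h
  simp only [pv]
  norm_num
  all_goals linear_combination h

lemma row5 : x ^ (0 : ℤ) * (x - 1) ^ (1 : ℤ) * y ^ (0 : ℤ) * (x + y) ^ (0 : ℤ) =
    pv x y (-1, 1, 0, 0, 0) := by
  have h := conv h0 h1 h2 h3 0 0 1 0 0 0 0 0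
    (((-1 : ℤ) : F) + ((1 : ℤ) : F) * x + ((0 : ℤ) : F) * y + ((0 : ℤ) : F) * x ^ 2 + ((0 : ℤ) : F) * (x * y))
    (by push_cast; linear_combination (0) * hE)
  norm_num at h
  simp only [pv]
  norm_num
  all_goals linear_combination h

lemma row6 : x ^ (1 : ℤ) * (x - 1) ^ (3 : ℤ) * y ^ (0 : ℤ) * (x + y) ^ (-1 : ℤ) =
    pv x y (-1, 2, -1, -1, 1) := by
  have h := conv h0 h1 h2 h3 1 0 3 0 0 0 0 1
    (((-1 : ℤ) : F) + ((2 : ℤ) : F) * x + ((-1 : ℤ) : F) * y + ((-1 : ℤ) : F) * x ^ 2 + ((1 : ℤ) : F) * (x * y))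
    (by push_cast; linear_combination ((1) + (-1)*x^1) * hE)
  norm_num at h
  simp only [pv]
  norm_num
  all_goals linear_combination h

lemma row7 : x ^ (2 : ℤ) * (x - 1) ^ (2 : ℤ) * y ^ (-1 : ℤ) * (x + y) ^ (0 : ℤ) =
    pv x y (-1, 1, -1, 0, 1) := by
  have h := conv h0 h1 h2 h3 2 0 2 0 0 1 0 0
    (((-1 : ℤ) : F) + ((1 : ℤ) : F) * x + ((-1 : ℤ) : F) * y + ((0 : ℤ) : F) * x ^ 2 + ((1 : ℤ) : F) * (x * y))
    (by push_cast; linear_combination ((1) + (-1)*x^1) * hE)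
  norm_num at h
  simp only [pv]
  norm_num
  all_goals linear_combination h

lemma row8 : x ^ (0 : ℤ) * (x - 1) ^ (2 : ℤ) * y ^ (0 : ℤ) * (x + y) ^ (0 : ℤ) =
    pv x y (1, -2, 0, 1, 0) := by
  have h := conv h0 h1 h2 h3 0 0 2 0 0 0 0 0
    (((1 : ℤ) : F) + ((-2 : ℤ) : F) * x + ((0 : ℤ) : F) * y + ((1 : ℤ) : F) * x ^ 2 + ((0 : ℤ) : F) * (x * y))
    (by push_cast; linear_combination (0) * hE)
  norm_num at h
  simp only [pv]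
  norm_num
  all_goals linear_combination h

lemma row9 : x ^ (1 : ℤ) * (x - 1) ^ (1 : ℤ) * y ^ (-1 : ℤ) * (x + y) ^ (1 : ℤ) =
    pv x y (1, -1, 1, 1, 0) := by
  have h := conv h0 h1 h2 h3 1 0 1 0 0 1 1 0
    (((1 : ℤ) : F) + ((-1 : ℤ) : F) * x + ((1 : ℤ) : F) * y + ((1 : ℤ) : F) * x ^ 2 + ((0 : ℤ) : F) * (x * y))
    (by push_cast; linear_combination ((-1)) * hE)
  norm_num at h
  simp only [pv]
  norm_num
  all_goals linear_combination h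

lemma row10 : x ^ (0 : ℤ) * (x - 1) ^ (1 : ℤ) * y ^ (-1 : ℤ) * (x + y) ^ (2 : ℤ) =
    pv x y (1, -2, 0, 2, 1) := by
  have h := conv h0 h1 h2 h3 0 0 1 0 0 1 2 0
    (((1 : ℤ) : F) + ((-2 : ℤ) : F) * x + ((0 : ℤ) : F) * y + ((2 : ℤ) : F) * x ^ 2 + ((1 : ℤ) : F) * (x * y))
    (by push_cast; linear_combination ((-1)) * hE)
  norm_num at h
  simp only [pv]
  norm_num
  all_goals linear_combination h

lemma row11 : x ^ (1 : ℤ) * (x - 1) ^ (0 : ℤ) * y ^ (0 : ℤ) * (x + y) ^ (0 : ℤ) =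
    pv x y (0, 1, 0, 0, 0) := by
  have h := conv h0 h1 h2 h3 1 0 0 0 0 0 0 0
    (((0 : ℤ) : F) + ((1 : ℤ) : F) * x + ((0 : ℤ) : F) * y + ((0 : ℤ) : F) * x ^ 2 + ((0 : ℤ) : F) * (x * y))
    (by push_cast; linear_combination (0) * hE)
  norm_num at h
  simp only [pv]
  norm_num
  all_goals linear_combination h

lemma row12 : x ^ (2 : ℤ) * (x - 1) ^ (2 : ℤ) * y ^ (0 : ℤ) * (x + y) ^ (-1 : ℤ) =
    pv x y (0, 1, 0, -1, 1) := by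
  have h := conv h0 h1 h2 h3 2 0 2 0 0 0 0 1
    (((0 : ℤ) : F) + ((1 : ℤ) : F) * x + ((0 : ℤ) : F) * y + ((-1 : ℤ) : F) * x ^ 2 + ((1 : ℤ) : F) * (x * y))
    (by push_cast; linear_combination ((-1)*x^1) * hE)
  norm_num at h
  simp only [pv]
  norm_num
  all_goals linear_combination h

lemma row13 : x ^ (0 : ℤ) * (x - 1) ^ (2 : ℤ) * y ^ (1 : ℤ) * (x + y) ^ (-1 : ℤ) =
    pv x y (0, -1, -1, 1, 0) := by
  have h := conv h0 h1 h2 h3 0 0 2 0 1 0 0 1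
    (((0 : ℤ) : F) + ((-1 : ℤ) : F) * x + ((-1 : ℤ) : F) * y + ((1 : ℤ) : F) * x ^ 2 + ((0 : ℤ) : F) * (x * y))
    (by push_cast; linear_combination ((1)) * hE)
  norm_num at h
  simp only [pv]
  norm_num
  all_goals linear_combination h

lemma row14 : x ^ (3 : ℤ) * (x - 1) ^ (1 : ℤ) * y ^ (-1 : ℤ) * (x + y) ^ (0 : ℤ) =
    pv x y (0, 1, 0, 0, 1) := by
  have h := conv h0 h1 h2 h3 3 0 1 0 0 1 0 0
    (((0 : ℤ) : F) + ((1 : ℤ) : F) * x + ((0 : ℤ) : F) * y + ((0 : ℤ) : F) * x ^ 2 + ((1 : ℤ) : F) * (x * y))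
    (by push_cast; linear_combination ((-1)*x^1) * hE)
  norm_num at h
  simp only [pv]
  norm_num
  all_goals linear_combination h

lemma row15 : x ^ (1 : ℤ) * (x - 1) ^ (1 : ℤ) * y ^ (0 : ℤ) * (x + y) ^ (0 : ℤ) =
    pv x y (0, -1, 0, 1, 0) := by
  have h := conv h0 h1 h2 h3 1 0 1 0 0 0 0 0
    (((0 : ℤ) : F) + ((-1 : ℤ) : F) * x + ((0 : ℤ) : F) * y + ((1 : ℤ) : F) * x ^ 2 + ((0 : ℤ) : F) * (x * y))
    (by push_cast; linear_combination (0) * hE)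
  norm_num at h
  simp only [pv]
  norm_num
  all_goals linear_combination h

lemma row16 : x ^ (0 : ℤ) * (x - 1) ^ (0 : ℤ) * y ^ (0 : ℤ) * (x + y) ^ (1 : ℤ) =
    pv x y (0, 1, 1, 0, 0) := by
  have h := conv h0 h1 h2 h3 0 0 0 0 0 0 1 0
    (((0 : ℤ) : F) + ((1 : ℤ) : F) * x + ((1 : ℤ) : F) * y + ((0 : ℤ) : F) * x ^ 2 + ((0 : ℤ) : F) * (x * y))
    (by push_cast; linear_combination (0) * hE)
  norm_num at h
  simp only [pv]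
  norm_num
  all_goals linear_combination h

lemma row17 : x ^ (0 : ℤ) * (x - 1) ^ (1 : ℤ) * y ^ (0 : ℤ) * (x + y) ^ (1 : ℤ) =
    pv x y (0, -1, -1, 1, 1) := by
  have h := conv h0 h1 h2 h3 0 0 1 0 0 0 1 0
    (((0 : ℤ) : F) + ((-1 : ℤ) : F) * x + ((-1 : ℤ) : F) * y + ((1 : ℤ) : F) * x ^ 2 + ((1 : ℤ) : F) * (x * y))
    (by push_cast; linear_combination (0) * hE)
  norm_num at h
  simp only [pv]
  norm_num
  all_goals linear_combination h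

lemma row18 : x ^ (2 : ℤ) * (x - 1) ^ (0 : ℤ) * y ^ (0 : ℤ) * (x + y) ^ (0 : ℤ) =
    pv x y (0, 0, 0, 1, 0) := by
  have h := conv h0 h1 h2 h3 2 0 0 0 0 0 0 0
    (((0 : ℤ) : F) + ((0 : ℤ) : F) * x + ((0 : ℤ) : F) * y + ((1 : ℤ) : F) * x ^ 2 + ((0 : ℤ) : F) * (x * y))
    (by push_cast; linear_combination (0) * hE)
  norm_num at h
  simp only [pv]
  norm_num
  all_goals linear_combination h

lemma row19 : x ^ (0 : ℤ) * (x - 1) ^ (0 : ℤ) * y ^ (1 : ℤ) * (x + y) ^ (0 : ℤ) =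
    pv x y (0, 0, 1, 0, 0) := by
  have h := conv h0 h1 h2 h3 0 0 0 0 1 0 0 0
    (((0 : ℤ) : F) + ((0 : ℤ) : F) * x + ((1 : ℤ) : F) * y + ((0 : ℤ) : F) * x ^ 2 + ((0 : ℤ) : F) * (x * y))
    (by push_cast; linear_combination (0) * hE)
  norm_num at h
  simp only [pv]
  norm_num
  all_goals linear_combination h

lemma row20 : x ^ (0 : ℤ) * (x - 1) ^ (1 : ℤ) * y ^ (1 : ℤ) * (x + y) ^ (0 : ℤ) =
    pv x y (0, 0, -1, 0, 1) := by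
  have h := conv h0 h1 h2 h3 0 0 1 0 1 0 0 0
    (((0 : ℤ) : F) + ((0 : ℤ) : F) * x + ((-1 : ℤ) : F) * y + ((0 : ℤ) : F) * x ^ 2 + ((1 : ℤ) : F) * (x * y))
    (by push_cast; linear_combination (0) * hE)
  norm_num at h
  simp only [pv]
  norm_num
  all_goals linear_combination h

lemma row21 : x ^ (1 : ℤ) * (x - 1) ^ (0 : ℤ) * y ^ (0 : ℤ) * (x + y) ^ (1 : ℤ) =
    pv x y (0, 0, 0, 1, 1) := by
  have h := conv h0 h1 h2 h3 1 0 0 0 0 0 1 0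
    (((0 : ℤ) : F) + ((0 : ℤ) : F) * x + ((0 : ℤ) : F) * y + ((1 : ℤ) : F) * x ^ 2 + ((1 : ℤ) : F) * (x * y))
    (by push_cast; linear_combination (0) * hE)
  norm_num at h
  simp only [pv]
  norm_num
  all_goals linear_combination h

lemma row22 : x ^ (1 : ℤ) * (x - 1) ^ (0 : ℤ) * y ^ (1 : ℤ) * (x + y) ^ (0 : ℤ) =
    pv x y (0, 0, 0, 0, 1) := by
  have h := conv h0 h1 h2 h3 1 0 0 0 1 0 0 0
    (((0 : ℤ) : F) + ((0 : ℤ) : F) * x + ((0 : ℤ) : F) * y + ((0 : ℤ) : F) * x ^ 2 + ((1 : ℤ) : F) * (x * y))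
    (by push_cast; linear_combination (0) * hE)
  norm_num at h
  simp only [pv]
  norm_num
  all_goals linear_combination h

lemma row23 : x ^ (0 : ℤ) * (x - 1) ^ (-1 : ℤ) * y ^ (1 : ℤ) * (x + y) ^ (1 : ℤ) =
    pv x y (0, 0, 1, 1, 0) := by
  have h := conv h0 h1 h2 h3 0 0 0 1 1 0 1 0
    (((0 : ℤ) : F) + ((0 : ℤ) : F) * x + ((1 : ℤ) : F) * y + ((1 : ℤ) : F) * x ^ 2 + ((0 : ℤ) : F) * (x * y))
    (by push_cast; linear_combination ((1)) * hE)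
  norm_num at h
  simp only [pv]
  norm_num
  all_goals linear_combination h

lemma row24 : x ^ (0 : ℤ) * (x - 1) ^ (-2 : ℤ) * y ^ (2 : ℤ) * (x + y) ^ (1 : ℤ) =
    pv x y (0, 0, 1, 1, 1) := by
  have h := conv h0 h1 h2 h3 0 0 0 2 2 0 1 0
    (((0 : ℤ) : F) + ((0 : ℤ) : F) * x + ((1 : ℤ) : F) * y + ((1 : ℤ) : F) * x ^ 2 + ((1 : ℤ) : F) * (x * y))
    (by push_cast; linear_combination ((-1) + (1)*y^1 + (1)*x^1) * hE)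
  norm_num at h
  simp only [pv]
  norm_num
  all_goals linear_combination h

lemma tab_spec : ∀ t ∈ tab, x ^ t.1.1 * (x - 1) ^ t.1.2.1 * y ^ t.1.2.2.1 * (x + y) ^ t.1.2.2.2 =
    pv x y t.2 := by
  intro t ht
  simp only [tab, List.mem_cons, List.not_mem_nil, or_false] at ht
  rcases ht with rfl | rfl | rfl | rfl | rfl | rfl | rfl | rfl | rfl | rfl | rfl | rfl | rfl | rfl | rfl | rfl | rfl | rfl | rfl | rfl | rfl | rfl | rfl | rfl | rfl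
  · exact row0 h0 h1 h2 h3 hE
  · exact row1 h0 h1 h2 h3 hE
  · exact row2 h0 h1 h2 h3 hE
  · exact row3 h0 h1 h2 h3 hE
  · exact row4 h0 h1 h2 h3 hE
  · exact row5 h0 h1 h2 h3 hE
  · exact row6 h0 h1 h2 h3 hE
  · exact row7 h0 h1 h2 h3 hE
  · exact row8 h0 h1 h2 h3 hE
  · exact row9 h0 h1 h2 h3 hE
  · exact row10 h0 h1 h2 h3 hE
  · exact row11 h0 h1 h2 h3 hE
  · exact row12 h0 h1 h2 h3 hE
  · exact row13 h0 h1 h2 h3 hE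
  · exact row14 h0 h1 h2 h3 hE
  · exact row15 h0 h1 h2 h3 hE
  · exact row16 h0 h1 h2 h3 hE
  · exact row17 h0 h1 h2 h3 hE
  · exact row18 h0 h1 h2 h3 hE
  · exact row19 h0 h1 h2 h3 hE
  · exact row20 h0 h1 h2 h3 hE
  · exact row21 h0 h1 h2 h3 hE
  · exact row22 h0 h1 h2 h3 hE
  · exact row23 h0 h1 h2 h3 hE
  · exact row24 h0 h1 h2 h3 hE

end Pool.Agent.K4C.FC
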