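import Mathlib
import Pool.Agent.Lib_helper24.K4C.FinA

/-!
# Completeness at X_1(11): the finite check, part 2 (poles in one cusp)
-/

set_option autoImplicit false

namespace Pool.Agent.K4C.FC

variable {k F : Type*} [Field k] [Field F] [Algebra k F]

/-- the five translates of `x` -/
def XX (x y : F) : Fin 5 → F :=
  ![x, -y / x ^ 2, x * (x + y) / (y * (x - 1)), y / (x + y), (x - 1) / y]

/-- the monomials -/
def mon (x y : F) (e : Fin 5 → ℤ) : F := ∏ i, XX x y i ^ e i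

/-- the order at the cusp `-i P` -/
def od (e : Fin 5 → ℤ) (i : Fin 5) : ℤ := e (i + 1) + e (i - 1) - 2 * e i

/-- the quadruple of exponents of `x`, `x - 1`, `y`, `x + y` -/
def qd (e : Fin 5 → ℤ) : ℤ × ℤ × ℤ × ℤ :=
  (e 0 - 2 * e 1 + e 2, e 4 - e 2, e 1 - e 2 + e 3 - e 4, e 2 - e 3)

lemma mon_eq {x y : F} (h0 : x ≠ 0) (h1 : x - 1 ≠ 0) (h2 : y ≠ 0) (h3 : x + y ≠ 0)
    (e : Fin 5 → ℤ) : mon x y e = (-1) ^ e 1 *
      (x ^ (qd e).1 * (x - 1) ^ (qd e).2.1 * y ^ (qd e).2.2.1 * (x + y) ^ (qd e).2.2.2) := by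
  unfold mon qd
  rw [Fin.prod_univ_five]
  have e0 : XX x y 0 = x := rfl
  have e1 : XX x y 1 = (-1) * y * (x ^ 2)⁻¹ := by
    show -y / x ^ 2 = _
    ring
  have e2 : XX x y 2 = x * (x + y) * (y⁻¹ * (x - 1)⁻¹) := by
    show x * (x + y) / (y * (x - 1)) = _
    rw [div_eq_mul_inv, mul_inv]
  have e3 : XX x y 3 = y * (x + y)⁻¹ := div_eq_mul_inv _ _
  have e4 : XX x y 4 = (x - 1) * y⁻¹ := div_eq_mul_inv _ _
  rw [e0, e1, e2, e3, e4]
  simp only [mul_zpow, inv_zpow', zpow_sub₀ h0, zpow_sub₀ h1, zpow_sub₀ h2, zpow_sub₀ h3,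
    zpow_add₀ h0, zpow_add₀ h1, zpow_add₀ h2, zpow_add₀ h3, zpow_neg]
  have e5 : ∀ n : ℤ, (x ^ 2) ^ n = x ^ (2 * n) := by
    intro n
    rw [zpow_mul]
    norm_cast
  rw [e5]
  have n0 : ∀ n : ℤ, x ^ n ≠ 0 := fun n => zpow_ne_zero n h0
  have n1 : ∀ n : ℤ, (x - 1) ^ n ≠ 0 := fun n => zpow_ne_zero n h1
  have n2 : ∀ n : ℤ, y ^ n ≠ 0 := fun n => zpow_ne_zero n h2
  have n3 : ∀ n : ℤ, (x + y) ^ n ≠ 0 := fun n => zpow_ne_zero n h3
  simp only [div_eq_mul_inv]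
  ring

/-- linear independence of `1, x, y, x ^ 2, x y` -/
def Ind (k : Type*) {F : Type*} [Field k] [Field F] [Algebra k F] (x y : F) : Prop :=
  ∀ a0 a1 a2 a3 a4 : k, algebraMap k F a0 + algebraMap k F a1 * x + algebraMap k F a2 * y +
    algebraMap k F a3 * x ^ 2 + algebraMap k F a4 * (x * y) = 0 →
      a0 = 0 ∧ a1 = 0 ∧ a2 = 0 ∧ a3 = 0 ∧ a4 = 0

/-- the possible orders at a cusp -/
def St (n n' : ℤ) : Prop :=
  (n = 0 ∧ n' = 0) ∨ (1 ≤ n ∧ n ≤ 5 ∧ n' = 0) ∨ (n = 0 ∧ 1 ≤ n' ∧ n' ≤ 5) ∨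
    (n = n' ∧ -5 ≤ n ∧ n ≤ -1)

lemma sgn_cases (n : ℤ) : ((-1 : k) ^ n = 1) ∨ ((-1 : k) ^ n = -1) := by
  rcases Int.even_or_odd n with h | h
  · left; exact h.neg_one_zpow
  · right; exact h.neg_one_zpow

lemma map_sgn (n : ℤ) : algebraMap k F ((-1 : k) ^ n) = (-1) ^ n := by
  rw [map_zpow₀, map_neg, map_one]

theorem core [CharZero k] {x y : F} (h0 : x ≠ 0) (h1 : x - 1 ≠ 0) (h2 : y ≠ 0) (h3 : x + y ≠ 0)
    (hE : y ^ 2 + y = x ^ 3 - x ^ 2) (hI : Ind k x y) (e e' : Fin 5 → ℤ) (c c' : k)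
    (hc : c ≠ 0) (hc' : c' ≠ 0)
    (h : algebraMap k F c * mon x y e + algebraMap k F c' * mon x y e' = 1)
    (hs : ∀ i, St (od e i) (od e' i)) (hm : od e 0 < 0) (hp : ∀ i, i ≠ 0 → 0 ≤ od e i) :
    algebraMap k F c * mon x y e = x ∨ algebraMap k F c * mon x y e = 1 - x ∨
      algebraMap k F c * mon x y e = -y ∨ algebraMap k F c * mon x y e = 1 + y := by
  have o0 : od e 0 = e 1 + e 4 - 2 * e 0 := rfl
  have o1 : od e 1 = e 2 + e 0 - 2 * e 1 := rfl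
  have o2 : od e 2 = e 3 + e 1 - 2 * e 2 := rfl
  have o3 : od e 3 = e 4 + e 2 - 2 * e 3 := rfl
  have o4 : od e 4 = e 0 + e 3 - 2 * e 4 := rfl
  have o0' : od e' 0 = e' 1 + e' 4 - 2 * e' 0 := rfl
  have o1' : od e' 1 = e' 2 + e' 0 - 2 * e' 1 := rfl
  have o2' : od e' 2 = e' 3 + e' 1 - 2 * e' 2 := rfl
  have o3' : od e' 3 = e' 4 + e' 2 - 2 * e' 3 := rfl
  have o4' : od e' 4 = e' 0 + e' 3 - 2 * e' 4 := rfl
  have q0 := hs 0
  have q1 := hs 1
  have q2 := hs 2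
  have q3 := hs 3
  have q4 := hs 4
  have p1 := hp 1 (by decide)
  have p2 := hp 2 (by decide)
  have p3 := hp 3 (by decide)
  have p4 := hp 4 (by decide)
  unfold St at q0 q1 q2 q3 q4
  -- the tables
  have r1 : rg (ods (qd e)) := by
    refine ⟨?_, ?_, ?_, ?_, ?_, ?_⟩ <;> simp only [ods, qd] <;> omega
  have r2 : rg (ods (qd e')) := by
    refine ⟨?_, ?_, ?_, ?_, ?_, ?_⟩ <;> simp only [ods, qd] <;> omega
  obtain ⟨t, ht, htq⟩ := mem_tab _ r1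
  obtain ⟨t', ht', htq'⟩ := mem_tab _ r2
  have m1 := mon_eq h0 h1 h2 h3 e
  have m2 := mon_eq h0 h1 h2 h3 e'
  rw [← htq, tab_spec h0 h1 h2 h3 hE t ht, ← map_sgn (k := k)] at m1
  rw [← htq', tab_spec h0 h1 h2 h3 hE t' ht', ← map_sgn (k := k)] at m2
  obtain ⟨g, hg⟩ : ∃ g : k, g = c * (-1) ^ e 1 := ⟨_, rfl⟩
  obtain ⟨g', hg'⟩ : ∃ g' : k, g' = c' * (-1) ^ e' 1 := ⟨_, rfl⟩
  have f1 : algebraMap k F c * mon x y e = algebraMap k F g * pv x y t.2 := by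
    rw [m1, hg, map_mul]; ring
  have f2 : algebraMap k F c' * mon x y e' = algebraMap k F g' * pv x y t'.2 := by
    rw [m2, hg', map_mul]; ring
  have hg0 : g ≠ 0 := by
    rw [hg]
    exact mul_ne_zero hc (zpow_ne_zero _ (neg_ne_zero.mpr one_ne_zero))
  have hg0' : g' ≠ 0 := by
    rw [hg']
    exact mul_ne_zero hc' (zpow_ne_zero _ (neg_ne_zero.mpr one_ne_zero))
  rw [f1, f2] at h
  rw [f1]
  have hI' := hI (g * t.2.1 + g' * t'.2.1 - 1) (g * t.2.2.1 + g' * t'.2.2.1)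
    (g * t.2.2.2.1 + g' * t'.2.2.2.1) (g * t.2.2.2.2.1 + g' * t'.2.2.2.2.1)
    (g * t.2.2.2.2.2 + g' * t'.2.2.2.2.2) (by
      simp only [pv] at h
      simp only [map_add, map_sub, map_mul, map_one, map_intCast]
      linear_combination h)
  obtain ⟨i0, i1, i2, i3, i4⟩ := hI'
  -- the minors
  have mi : ∀ a b a' b' : ℤ, g * a + g' * a' = 0 → g * b + g' * b' = 0 → a * b' = b * a' := by
    intro a b a' b' u v
    have w : g * ((a * b' - b * a' : ℤ) : k) = 0 := by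
      push_cast
      linear_combination (b' : k) * u - (a' : k) * v
    rcases mul_eq_zero.mp w with w | w
    · exact absurd w hg0
    · have := Int.cast_eq_zero.mp w
      omega
  have hcond : cond t t' := by
    refine ⟨?_, ?_, ?_, ?_, mi _ _ _ _ i1 i2, mi _ _ _ _ i1 i3, mi _ _ _ _ i1 i4, mi _ _ _ _ i2 i3,
      mi _ _ _ _ i2 i4, mi _ _ _ _ i3 i4⟩
    · rw [htq, htq']
      show (e 0 - 2 * e 1 + e 2 + 2 * (e 1 - e 2 + e 3 - e 4) + (e 2 - e 3)) *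
        (e' 0 - 2 * e' 1 + e' 2 + 2 * (e' 1 - e' 2 + e' 3 - e' 4) + (e' 2 - e' 3)) = 0
      rw [mul_eq_zero]
      omega
    · rw [htq, htq']
      show (e 4 - e 2 + 2 * (e 2 - e 3)) * (e' 4 - e' 2 + 2 * (e' 2 - e' 3)) = 0
      rw [mul_eq_zero]
      omega
    · rw [htq, htq']
      show (e 4 - e 2 + (e 1 - e 2 + e 3 - e 4)) * (e' 4 - e' 2 + (e' 1 - e' 2 + e' 3 - e' 4)) = 0
      rw [mul_eq_zero]
      omega
    · rw [htq, htq']
      show (e 0 - 2 * e 1 + e 2) * (e' 0 - 2 * e' 1 + e' 2) = 0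
      rw [mul_eq_zero]
      omega
  rcases cond_tab t ht t' ht' hcond with ⟨a, b⟩ | ⟨a, b⟩ | ⟨a, b⟩ | ⟨a, b⟩
  · subst a b
    left
    norm_num at i0 i1
    have : g = 1 := by linear_combination i1 + i0
    rw [this]
    simp [pv]
  · subst a b
    right; left
    norm_num at i0 i1
    have : g = -1 := by linear_combination -i0
    rw [this]
    simp [pv]
    ring
  · subst a b
    right; right; left
    norm_num at i0 i2
    have : g = -1 := by linear_combination i2 - i0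
    rw [this]
    simp [pv]
  · subst a b
    right; right; right
    norm_num at i0 i2
    have : g = 1 := by linear_combination i0
    rw [this]
    simp [pv]

end Pool.Agent.K4C.FC
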