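import Mathlib
import Pool.Agent.Lib_helper24.K4C.FinB

/-!
# Completeness at X_1(11): the finite check, part 3 (rotation and the symmetric group)
-/

set_option autoImplicit false

namespace Pool.Agent.K4C.FC

variable {k F : Type*} [Field k] [Field F] [Algebra k F]

/-- `f` is one of the six functions `z, 1 - z, 1 / z, 1 - 1 / z, 1 / (1 - z), z / (z - 1)` -/
def S3 (f z : F) : Prop :=
  f = z ∨ f = 1 - z ∨ f = 1 / z ∨ f = 1 - 1 / z ∨ f = 1 / (1 - z) ∨ f = z / (z - 1)

lemma S3.inv {f z : F} (hf0 : f ≠ 0) (hf1 : f ≠ 1) (h : S3 f⁻¹ z) : S3 f z := by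
  have e : f = (f⁻¹)⁻¹ := (inv_inv f).symm
  have hi0 : f⁻¹ ≠ 0 := inv_ne_zero hf0
  have hi1 : f⁻¹ ≠ 1 := fun h => hf1 (by rw [e, h, inv_one])
  generalize hg : f⁻¹ = g at *
  rw [e]
  rcases h with rfl | rfl | rfl | rfl | rfl | rfl
  · right; right; left; rw [one_div]
  · right; right; right; right; left; rw [one_div]
  · left; rw [one_div, inv_inv]
  · right; right; right; right; right
    have hz : z ≠ 0 := by
      rintro rfl
      simp at hi1
    have hz1 : z - 1 ≠ 0 := by
      intro h
      have : z = 1 := by linear_combination h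
      subst this
      simp at hi0
    field_simp
  · right; left
    rw [one_div, inv_inv]
  · right; right; right; left
    have hz : z ≠ 0 := by
      rintro rfl
      simp at hi0
    rw [inv_div]
    field_simp

lemma S3.sub {f z : F} (hf0 : f ≠ 0) (hf1 : f ≠ 1) (h : S3 (1 - f) z) : S3 f z := by
  have e : f = 1 - (1 - f) := by ring
  generalize hg : 1 - f = g at *
  have hg1 : g ≠ 1 := by
    rintro rfl
    apply hf0
    rw [e]; ring
  have hg0 : g ≠ 0 := by
    rintro rfl
    apply hf1
    rw [e]; ring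
  rw [e]
  rcases h with rfl | rfl | rfl | rfl | rfl | rfl
  · right; left; rfl
  · left; ring
  · right; right; right; left; rfl
  · right; right; left; ring
  · right; right; right; right; right
    have hz : 1 - z ≠ 0 := by
      intro h
      rw [h] at hg0
      simp at hg0
    have hz' : z - 1 ≠ 0 := by
      intro h
      apply hz
      linear_combination -h
    field_simp
    ring
  · right; right; right; right; left
    have hz : z - 1 ≠ 0 := by
      intro h
      rw [h] at hg0
      simp at hg0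
    have hz' : 1 - z ≠ 0 := by
      intro h
      apply hz
      linear_combination -h
    field_simp
    ring

/-- the point `τ (x, y)` -/
def tx (x y : F) : F := -y / x ^ 2

/-- the point `τ (x, y)` -/
def ty (x y : F) : F := -(x ^ 2 + y) / x ^ 3

lemma tE {x y : F} (h0 : x ≠ 0) (hE : y ^ 2 + y = x ^ 3 - x ^ 2) :
    ty x y ^ 2 + ty x y = tx x y ^ 3 - tx x y ^ 2 := by
  unfold tx ty
  field_simp
  linear_combination (y + x ^ 2) * hE

lemma fac1 {x y : F} (hE : y ^ 2 + y = x ^ 3 - x ^ 2) : y * (y + 1) = x ^ 2 * (x - 1) := by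
  linear_combination hE

lemma fac2 {x y : F} (hE : y ^ 2 + y = x ^ 3 - x ^ 2) :
    (x ^ 2 + y) * (x - 1) = y * (x + y) := by
  linear_combination -hE

lemma fac3 {x y : F} (hE : y ^ 2 + y = x ^ 3 - x ^ 2) :
    (x ^ 2 + x * y + y) * (x - 1) ^ 2 = y ^ 2 * (x + y) := by
  linear_combination (-x - y + 1) * hE

lemma tXX {x y : F} (h0 : x ≠ 0) (h1 : x - 1 ≠ 0) (h2 : y ≠ 0) (h3 : x + y ≠ 0)
    (hE : y ^ 2 + y = x ^ 3 - x ^ 2) (i : Fin 5) : XX (tx x y) (ty x y) i = XX x y (i + 1) := by
  have a2 : x ^ 2 + y ≠ 0 := by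
    intro h
    have := fac2 hE
    rw [h, zero_mul] at this
    exact (mul_ne_zero h2 h3) this.symm
  have a3 : x ^ 2 + x * y + y ≠ 0 := by
    intro h
    have := fac3 hE
    rw [h, zero_mul] at this
    exact (mul_ne_zero (pow_ne_zero 2 h2) h3) this.symm
  have t1 : tx x y - 1 = -(x ^ 2 + y) / x ^ 2 := by unfold tx; field_simp; ring
  have t2 : tx x y + ty x y = -(x ^ 2 + x * y + y) / x ^ 3 := by
    unfold tx ty; field_simp; ring
  have t0 : tx x y = -y / x ^ 2 := rfl
  have t0' : ty x y = -(x ^ 2 + y) / x ^ 3 := rfl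
  fin_cases i
  · rfl
  · show -ty x y / tx x y ^ 2 = x * (x + y) / (y * (x - 1))
    rw [t0, t0']
    field_simp
    linear_combination fac2 hE
  · show tx x y * (tx x y + ty x y) / (ty x y * (tx x y - 1)) = y / (x + y)
    rw [t1, t2, t0, t0', div_eq_div_iff (by
      refine mul_ne_zero ?_ ?_
      · exact div_ne_zero (neg_ne_zero.mpr a2) (pow_ne_zero 3 h0)
      · exact div_ne_zero (neg_ne_zero.mpr a2) (pow_ne_zero 2 h0)) h3]
    field_simp
    linear_combination x * hE
  · show ty x y / (tx x y + ty x y) = (x - 1) / y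
    rw [t2, t0', div_eq_div_iff (div_ne_zero (neg_ne_zero.mpr a3) (pow_ne_zero 3 h0)) h2]
    field_simp
    linear_combination -hE
  · show (tx x y - 1) / ty x y = x
    rw [t1, t0']
    field_simp

end Pool.Agent.K4C.FC
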