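import Mathlib
import Pool.Agent.Lib_helper24.K4C.FinC

/-!
# Completeness at X_1(11): the finite check, part 4 (the unit equation, from the bounds)
-/

set_option autoImplicit false

namespace Pool.Agent.K4C.FC

variable {k F : Type*} [Field k] [Field F] [Algebra k F]

lemma tr_ne {x : F} (hx : Transcendental k x) : x ≠ 0 := by
  rintro rfl
  exact hx (isAlgebraic_zero)

lemma tr_ne1 {x : F} (hx : Transcendental k x) : x - 1 ≠ 0 := by
  intro h
  have : x = 1 := by linear_combination h
  rw [this] at hx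
  exact hx isAlgebraic_one

lemma tr_y {x y : F} (hE : y ^ 2 + y = x ^ 3 - x ^ 2) (hx : Transcendental k x) : y ≠ 0 := by
  rintro rfl
  have h := fac1 hE
  have h2 : x ^ 2 * (x - 1) = 0 := by rw [← h]; ring
  exact (mul_ne_zero (pow_ne_zero 2 (tr_ne hx)) (tr_ne1 hx)) h2

lemma tr_xy {x y : F} (hE : y ^ 2 + y = x ^ 3 - x ^ 2) (hx : Transcendental k x) : x + y ≠ 0 := by
  intro h
  have hy : y = -x := by linear_combination h
  subst hy
  have h2 : x * (x - 1) ^ 2 = 0 := by linear_combination -hE
  exact (mul_ne_zero (tr_ne hx) (pow_ne_zero 2 (tr_ne1 hx))) h2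

/-- `τ x` is transcendental -/
lemma tr_tx {x y : F} (hE : y ^ 2 + y = x ^ 3 - x ^ 2) (hx : Transcendental k x) :
    Transcendental k (tx x y) := by
  intro hz
  apply hx
  have h0 := tr_ne hx
  obtain ⟨z, hzd⟩ : ∃ z : F, z = tx x y := ⟨_, rfl⟩
  have hzx : z * x ^ 2 = -y := by rw [hzd]; unfold tx; field_simp
  have key : z ^ 2 * x ^ 2 - x + (1 - z) = 0 := by
    have h1 : x ^ 2 * (z ^ 2 * x ^ 2 - x + (1 - z)) = 0 := by
      have hy : y = -(z * x ^ 2) := by rw [hzx, neg_neg]
      rw [hy] at hE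
      linear_combination hE
    exact (mul_eq_zero.mp h1).resolve_left (pow_ne_zero 2 h0)
  rw [← hzd] at hz
  let A := algebraicClosure k F
  have hzA : z ∈ A := mem_algebraicClosure_iff.mpr hz
  have hA : IsAlgebraic A x := by
    refine ⟨Polynomial.C (⟨z, hzA⟩ ^ 2 : A) * Polynomial.X ^ 2 - Polynomial.X +
      Polynomial.C (1 - ⟨z, hzA⟩ : A), ?_, ?_⟩
    · intro h
      have := congrArg (fun p => Polynomial.coeff p 1) h
      simp [Polynomial.coeff_X_pow, Polynomial.coeff_C, Polynomial.coeff_one] at this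
    · simp only [map_add, map_sub, map_mul, map_pow, Polynomial.aeval_C, Polynomial.aeval_X,
        map_one]
      exact key
  exact hA.restrictScalars k

lemma rot {x y : F} (hE : y ^ 2 + y = x ^ 3 - x ^ 2) (hx : Transcendental k x) (n : ℕ) :
    ∃ x' y' : F, y' ^ 2 + y' = x' ^ 3 - x' ^ 2 ∧ Transcendental k x' ∧
      ∀ j : Fin 5, XX x' y' j = XX x y (j + (Fin.ofNat 5 n)) := by
  induction n with
  | zero =>
    refine ⟨x, y, hE, hx, fun j => ?_⟩
    congr 1
    revert j
    decide
  | succ n ih =>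
    obtain ⟨x', y', hE', hx', h⟩ := ih
    refine ⟨tx x' y', ty x' y', tE (tr_ne hx') hE', tr_tx hE' hx', fun j => ?_⟩
    rw [tXX (tr_ne hx') (tr_ne1 hx') (tr_y hE' hx') (tr_xy hE' hx') hE', h]
    congr 1
    apply Fin.ext
    simp only [Fin.val_add, Fin.ofNat, Fin.val_one]
    omega

lemma od_rot (e : Fin 5 → ℤ) (i j : Fin 5) : od (fun l => e (l + i)) j = od e (j + i) := by
  have h1 : ∀ i j : Fin 5, j + 1 + i = j + i + 1 := by decide
  have h2 : ∀ i j : Fin 5, j - 1 + i = j + i - 1 := by decide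
  show e (j + 1 + i) + e (j - 1 + i) - 2 * e (j + i) = _
  rw [h1, h2]
  rfl

lemma mon_rot {x y x' y' : F} (i : Fin 5) (h : ∀ j, XX x' y' j = XX x y (j + i))
    (e : Fin 5 → ℤ) : mon x' y' (fun l => e (l + i)) = mon x y e := by
  unfold mon
  simp only [h]
  exact Fintype.prod_equiv (Equiv.addRight i) _ (fun l => XX x y l ^ e l) (fun l => rfl)

/-- the statement of the bounds -/
def Bd (k F : Type*) [Field k] [Field F] [Algebra k F] : Prop :=
  ∀ x y : F, y ^ 2 + y = x ^ 3 - x ^ 2 → Transcendental k x → ∀ (e e' : Fin 5 → ℤ) (c c' : k),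
    c ≠ 0 → c' ≠ 0 → algebraMap k F c * mon x y e + algebraMap k F c' * mon x y e' = 1 →
      ∀ i, St (od e i) (od e' i)

lemma XX_ne {x y : F} (h0 : x ≠ 0) (h1 : x - 1 ≠ 0) (h2 : y ≠ 0) (h3 : x + y ≠ 0) (i : Fin 5) :
    XX x y i ≠ 0 := by
  fin_cases i
  · exact h0
  · exact div_ne_zero (neg_ne_zero.mpr h2) (pow_ne_zero 2 h0)
  · exact div_ne_zero (mul_ne_zero h0 h3) (mul_ne_zero h2 h1)
  · exact div_ne_zero h2 h3
  · exact div_ne_zero h1 h2

lemma mon_ne {x y : F} (h0 : x ≠ 0) (h1 : x - 1 ≠ 0) (h2 : y ≠ 0) (h3 : x + y ≠ 0)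
    (e : Fin 5 → ℤ) : mon x y e ≠ 0 :=
  Finset.prod_ne_zero_iff.mpr fun i _ => zpow_ne_zero _ (XX_ne h0 h1 h2 h3 i)

lemma mon_neg (x y : F) (e : Fin 5 → ℤ) : mon x y (fun i => -e i) = (mon x y e)⁻¹ := by
  unfold mon
  rw [← Finset.prod_inv_distrib]
  exact Finset.prod_congr rfl fun i _ => zpow_neg _ _

lemma mon_sub {x y : F} (h0 : x ≠ 0) (h1 : x - 1 ≠ 0) (h2 : y ≠ 0) (h3 : x + y ≠ 0)
    (e e' : Fin 5 → ℤ) : mon x y (fun i => e' i - e i) = mon x y e' / mon x y e := by
  unfold mon
  rw [← Finset.prod_div_distrib]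
  exact Finset.prod_congr rfl fun i _ => zpow_sub₀ (XX_ne h0 h1 h2 h3 i) _ _

lemma pig : ∀ s : Fin 5 → Fin 4, (∃ i, s i = 1) → (∃ i, s i = 2) → (∃ i, s i = 3) →
    ∃ i0, (s i0 = 1 ∧ ∀ j, j ≠ i0 → s j ≠ 1) ∨ (s i0 = 2 ∧ ∀ j, j ≠ i0 → s j ≠ 2) ∨
      (s i0 = 3 ∧ ∀ j, j ≠ i0 → s j ≠ 3) := by
  decide +kernel

/-- one pole -/
lemma one_pole [CharZero k] (hB : Bd k F)
    (hI : ∀ x y : F, y ^ 2 + y = x ^ 3 - x ^ 2 → Transcendental k x → Ind k x y)
    {x y : F} (hE : y ^ 2 + y = x ^ 3 - x ^ 2) (hx : Transcendental k x)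
    (e e' : Fin 5 → ℤ) (c c' : k) (hc : c ≠ 0) (hc' : c' ≠ 0)
    (h : algebraMap k F c * mon x y e + algebraMap k F c' * mon x y e' = 1) (i : Fin 5)
    (hm : od e i < 0) (hp : ∀ j, j ≠ i → 0 ≤ od e j) :
    S3 (algebraMap k F c * mon x y e) (XX x y i) ∨
      S3 (algebraMap k F c * mon x y e) (XX x y (i + 1) * XX x y i ^ 2) := by
  obtain ⟨x', y', hE', hx', hX⟩ := rot hE hx i.val
  have hi : Fin.ofNat 5 i.val = i := by
    apply Fin.ext
    simp only [Fin.ofNat]
    exact Nat.mod_eq_of_lt i.isLt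
  rw [hi] at hX
  have e1 := mon_rot i hX e
  have e2 := mon_rot i hX e'
  have hh : algebraMap k F c * mon x' y' (fun l => e (l + i)) +
      algebraMap k F c' * mon x' y' (fun l => e' (l + i)) = 1 := by rw [e1, e2]; exact h
  have hs := hB x' y' hE' hx' _ _ c c' hc hc' hh
  have hc0 := core (tr_ne hx') (tr_ne1 hx') (tr_y hE' hx') (tr_xy hE' hx') hE' (hI x' y' hE' hx')
    _ _ c c' hc hc' hh hs (by
      rw [od_rot]
      have : (0 : Fin 5) + i = i := zero_add i
      rw [this]; exact hm) (by
      intro j hj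
      rw [od_rot]
      apply hp
      intro h0
      apply hj
      have : ∀ i j : Fin 5, j + i = i → j = 0 := by decide
      exact this i j h0)
  rw [e1] at hc0
  have z1 : x' = XX x y i := by
    have := hX 0
    have h0 : (0 : Fin 5) + i = i := zero_add i
    rw [h0] at this
    exact this
  have z2 : -y' = XX x y (i + 1) * XX x y i ^ 2 := by
    have h1 := hX 1
    have h0 : (1 : Fin 5) + i = i + 1 := add_comm 1 i
    rw [h0] at h1
    rw [← h1, ← z1]
    show -y' = -y' / x' ^ 2 * x' ^ 2
    rw [div_mul_cancel₀]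
    exact pow_ne_zero 2 (tr_ne hx')
  rcases hc0 with h | h | h | h
  · left; left; rw [h, z1]
  · left; right; left; rw [h, z1]
  · right; left; rw [h, z2]
  · right; right; left; rw [h, ← z2]; ring

theorem unit_eq [CharZero k] (hB : Bd k F)
    (hI : ∀ x y : F, y ^ 2 + y = x ^ 3 - x ^ 2 → Transcendental k x → Ind k x y)
    {x y : F} (hE : y ^ 2 + y = x ^ 3 - x ^ 2) (hx : Transcendental k x)
    (e e' : Fin 5 → ℤ) (c c' : k) (hc : c ≠ 0) (hc' : c' ≠ 0)
    (h : algebraMap k F c * mon x y e + algebraMap k F c' * mon x y e' = 1) :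
    (∃ a : k, algebraMap k F c * mon x y e = algebraMap k F a) ∨
      ∃ i : Fin 5, S3 (algebraMap k F c * mon x y e) (XX x y i) ∨
        S3 (algebraMap k F c * mon x y e) (XX x y (i + 1) * XX x y i ^ 2) := by
  have h0 := tr_ne hx
  have h1 := tr_ne1 hx
  have h2 := tr_y hE hx
  have h3 := tr_xy hE hx
  have hs := hB x y hE hx e e' c c' hc hc' h
  have o0 : od e 0 = e 1 + e 4 - 2 * e 0 := rfl
  have o1 : od e 1 = e 2 + e 0 - 2 * e 1 := rfl
  have o2 : od e 2 = e 3 + e 1 - 2 * e 2 := rfl
  have o3 : od e 3 = e 4 + e 2 - 2 * e 3 := rfl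
  have o4 : od e 4 = e 0 + e 3 - 2 * e 4 := rfl
  have o0' : od e' 0 = e' 1 + e' 4 - 2 * e' 0 := rfl
  have o1' : od e' 1 = e' 2 + e' 0 - 2 * e' 1 := rfl
  have o2' : od e' 2 = e' 3 + e' 1 - 2 * e' 2 := rfl
  have o3' : od e' 3 = e' 4 + e' 2 - 2 * e' 3 := rfl
  have o4' : od e' 4 = e' 0 + e' 3 - 2 * e' 4 := rfl
  have q0 := hs 0
  have q1 := hs 1
  have q2 := hs 2
  have q3 := hs 3
  have q4 := hs 4
  unfold St at q0 q1 q2 q3 q4
  by_cases hcst : od e 0 = 0 ∧ od e 1 = 0 ∧ od e 2 = 0 ∧ od e 3 = 0 ∧ od e 4 = 0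
  · left
    obtain ⟨a0, a1, a2, a3, a4⟩ := hcst
    have m1 := mon_eq h0 h1 h2 h3 e
    have b1 : (qd e).1 = 0 := by show e 0 - 2 * e 1 + e 2 = 0; omega
    have b2 : (qd e).2.1 = 0 := by show e 4 - e 2 = 0; omega
    have b3 : (qd e).2.2.1 = 0 := by show e 1 - e 2 + e 3 - e 4 = 0; omega
    have b4 : (qd e).2.2.2 = 0 := by show e 2 - e 3 = 0; omega
    rw [b1, b2, b3, b4] at m1
    refine ⟨c * (-1) ^ e 1, ?_⟩
    rw [m1, map_mul, map_sgn]
    simp
  · right
    have ex3 : ∃ i, od e i < 0 := by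
      by_contra hne
      push Not at hne
      have := hne 0
      have := hne 1
      have := hne 2
      have := hne 3
      have := hne 4
      apply hcst
      refine ⟨?_, ?_, ?_, ?_, ?_⟩ <;> omega
    have ex1 : ∃ i, 0 < od e i := by
      by_contra hne
      push Not at hne
      have := hne 0
      have := hne 1
      have := hne 2
      have := hne 3
      have := hne 4
      apply hcst
      refine ⟨?_, ?_, ?_, ?_, ?_⟩ <;> omega
    have ex2 : ∃ i, 0 < od e' i := by
      obtain ⟨j, hj⟩ := ex3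
      have hj' : od e' j < 0 := by
        have := hs j
        unfold St at this
        omega
      by_contra hne
      push Not at hne
      have a0 := hne 0
      have a1 := hne 1
      have a2 := hne 2
      have a3 := hne 3
      have a4 := hne 4
      have b0 : od e' 0 = 0 := by omega
      have b1 : od e' 1 = 0 := by omega
      have b2 : od e' 2 = 0 := by omega
      have b3 : od e' 3 = 0 := by omega
      have b4 : od e' 4 = 0 := by omega
      fin_cases j
      · exact absurd b0 (ne_of_lt hj')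
      · exact absurd b1 (ne_of_lt hj')
      · exact absurd b2 (ne_of_lt hj')
      · exact absurd b3 (ne_of_lt hj')
      · exact absurd b4 (ne_of_lt hj')
    -- the states
    let s : Fin 5 → Fin 4 := fun i =>
      if od e i < 0 then 3 else if 0 < od e i then 1 else if 0 < od e' i then 2 else 0
    have s3 : ∀ i, s i = 3 ↔ od e i < 0 := by
      intro i
      by_cases u : od e i < 0
      · simp [s, u]
      · by_cases u1 : 0 < od e i
        · simp [s, u, u1]
        · by_cases u2 : 0 < od e' i <;> simp [s, u, u1, u2]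
    have s1 : ∀ i, s i = 1 ↔ 0 < od e i := by
      intro i
      by_cases u : od e i < 0
      · have : ¬ 0 < od e i := by omega
        simp [s, u, this]
      · by_cases u1 : 0 < od e i
        · simp [s, u, u1]
        · by_cases u2 : 0 < od e' i <;> simp [s, u, u1, u2]
    have s2 : ∀ i, s i = 2 ↔ 0 < od e' i := by
      intro i
      have hi := hs i
      unfold St at hi
      by_cases u : od e i < 0
      · have : ¬ 0 < od e' i := by omega
        simp [s, u, this]
      · by_cases u1 : 0 < od e i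
        · have : ¬ 0 < od e' i := by omega
          simp [s, u, u1, this]
        · by_cases u2 : 0 < od e' i <;> simp [s, u, u1, u2]
    set f := algebraMap k F c * mon x y e with hf
    set g := algebraMap k F c' * mon x y e' with hg
    have cF : algebraMap k F c ≠ 0 := by
      rw [Ne, map_eq_zero]; exact hc
    have cF' : algebraMap k F c' ≠ 0 := by
      rw [Ne, map_eq_zero]; exact hc'
    have f0 : f ≠ 0 := mul_ne_zero cF (mon_ne h0 h1 h2 h3 e)
    have g0 : g ≠ 0 := mul_ne_zero cF' (mon_ne h0 h1 h2 h3 e')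
    have f1 : f ≠ 1 := by
      intro h'
      apply g0
      linear_combination h - h'
    have g1 : g ≠ 1 := by
      intro h'
      apply f0
      linear_combination h - h'
    obtain ⟨i, hi⟩ := pig s (by obtain ⟨i, hi⟩ := ex1; exact ⟨i, (s1 i).mpr hi⟩)
      (by obtain ⟨i, hi⟩ := ex2; exact ⟨i, (s2 i).mpr hi⟩)
      (by obtain ⟨i, hi⟩ := ex3; exact ⟨i, (s3 i).mpr hi⟩)
    refine ⟨i, ?_⟩
    rcases hi with ⟨hi, hj⟩ | ⟨hi, hj⟩ | ⟨hi, hj⟩
    · -- one zero of `f`
      have hh : algebraMap k F c⁻¹ * mon x y (fun l => -e l) +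
          algebraMap k F (-(c' / c)) * mon x y (fun l => e' l - e l) = 1 := by
        rw [mon_neg, mon_sub h0 h1 h2 h3, map_inv₀, map_neg, map_div₀]
        have : (algebraMap k F c)⁻¹ * (mon x y e)⁻¹ +
            -(algebraMap k F c' / algebraMap k F c) * (mon x y e' / mon x y e) =
            (1 - g) / f := by
          have := mon_ne h0 h1 h2 h3 e
          rw [hf, hg]
          field_simp
          ring
        rw [this]
        have : 1 - g = f := by linear_combination -h
        rw [this, div_self f0]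
      have r := one_pole hB hI hE hx _ _ _ _ (inv_ne_zero hc)
        (neg_ne_zero.mpr (div_ne_zero hc' hc)) hh i (by
          have := (s1 i).mp hi
          show -e (i + 1) + -e (i - 1) - 2 * -e i < 0
          have o : od e i = e (i + 1) + e (i - 1) - 2 * e i := rfl
          omega) (by
          intro j hji
          have := mt (s1 j).mpr (hj j hji)
          show 0 ≤ -e (j + 1) + -e (j - 1) - 2 * -e j
          have o : od e j = e (j + 1) + e (j - 1) - 2 * e j := rfl
          omega)
      have fe : algebraMap k F c⁻¹ * mon x y (fun l => -e l) = f⁻¹ := by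
        rw [mon_neg, map_inv₀, hf, mul_inv]
      rw [fe] at r
      rcases r with r | r
      · left; exact S3.inv f0 f1 r
      · right; exact S3.inv f0 f1 r
    · -- one zero of `g`
      have hh : algebraMap k F c'⁻¹ * mon x y (fun l => -e' l) +
          algebraMap k F (-(c / c')) * mon x y (fun l => e l - e' l) = 1 := by
        rw [mon_neg, mon_sub h0 h1 h2 h3, map_inv₀, map_neg, map_div₀]
        have : (algebraMap k F c')⁻¹ * (mon x y e')⁻¹ +
            -(algebraMap k F c / algebraMap k F c') * (mon x y e / mon x y e') =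
            (1 - f) / g := by
          have := mon_ne h0 h1 h2 h3 e'
          rw [hf, hg]
          field_simp
          ring
        rw [this]
        have : 1 - f = g := by linear_combination -h
        rw [this, div_self g0]
      have r := one_pole hB hI hE hx _ _ _ _ (inv_ne_zero hc')
        (neg_ne_zero.mpr (div_ne_zero hc hc')) hh i (by
          have := (s2 i).mp hi
          show -e' (i + 1) + -e' (i - 1) - 2 * -e' i < 0
          have o : od e' i = e' (i + 1) + e' (i - 1) - 2 * e' i := rfl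
          omega) (by
          intro j hji
          have := mt (s2 j).mpr (hj j hji)
          show 0 ≤ -e' (j + 1) + -e' (j - 1) - 2 * -e' j
          have o : od e' j = e' (j + 1) + e' (j - 1) - 2 * e' j := rfl
          omega)
      have fe : algebraMap k F c'⁻¹ * mon x y (fun l => -e' l) = g⁻¹ := by
        rw [mon_neg, map_inv₀, hg, mul_inv]
      have eg : g = 1 - f := by linear_combination h
      rw [fe] at r
      rcases r with r | r
      · left
        have := S3.inv g0 g1 r
        rw [eg] at this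
        exact S3.sub f0 f1 this
      · right
        have := S3.inv g0 g1 r
        rw [eg] at this
        exact S3.sub f0 f1 this
    · -- one pole
      exact one_pole hB hI hE hx e e' c c' hc hc' h i ((s3 i).mp hi) (by
        intro j hji
        have := mt (s3 j).mpr (hj j hji)
        omega)

end Pool.Agent.K4C.FC
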