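import Mathlib
import Pool.Agent.Lib_helper24.K4C.FinD
import Pool.Agent.Lib_helper76.UE11.E
import Pool.Agent.Lib_helper60.K4C.Cross

/-!
# Completeness at X_1(11): the unit equation
-/

set_option autoImplicit false

namespace Pool.Agent.K4C.FC

variable {k F : Type*} [Field k] [Field F] [Algebra k F]

lemma XX_eq (x y : F) : XX x y = UE11.X x y := rfl

lemma mon_eq' (x y : F) (e : Fin 5 → ℤ) : mon x y e = UE11.mon x y e := rfl

lemma od_sum (e : Fin 5 → ℤ) : od e 0 + od e 1 + od e 2 + od e 3 + od e 4 = 0 := by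
  have o0 : od e 0 = e 1 + e 4 - 2 * e 0 := rfl
  have o1 : od e 1 = e 2 + e 0 - 2 * e 1 := rfl
  have o2 : od e 2 = e 3 + e 1 - 2 * e 2 := rfl
  have o3 : od e 3 = e 4 + e 2 - 2 * e 3 := rfl
  have o4 : od e 4 = e 0 + e 3 - 2 * e 4 := rfl
  omega

lemma bd [CharZero k] : Bd k F := by
  intro x y hE hx e e' c c' hc hc' h i
  have hG : UE11.Gen k x y := ⟨hE, (UE11.Tr_iff x).mpr hx⟩
  have h' : algebraMap k F c' * mon x y e' + algebraMap k F c * mon x y e = 1 := by
    rw [add_comm]; exact h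
  rcases UE11.bound hG hc hc' h with he | he
  · have z : ∀ j, od e j = 0 := by
      intro j
      show e (j + 1) + e (j - 1) - 2 * e j = 0
      rw [he (j + 1) j, he (j - 1) j]
      ring
    rcases UE11.bound hG hc' hc h' with he' | he'
    · have z' : ∀ j, od e' j = 0 := by
        intro j
        show e' (j + 1) + e' (j - 1) - 2 * e' j = 0
        rw [he' (j + 1) j, he' (j - 1) j]
        ring
      exact Or.inl ⟨z i, z' i⟩
    · have p : ∀ j, 0 ≤ od e' j := by
        intro j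
        have a : UE11.Alt (od e' j) (od e j) := he' j
        rw [z j] at a
        unfold UE11.Alt at a
        omega
      have s := od_sum e'
      have p0 := p 0
      have p1 := p 1
      have p2 := p 2
      have p3 := p 3
      have p4 := p 4
      have y0 : od e' 0 = 0 := by omega
      have y1 : od e' 1 = 0 := by omega
      have y2 : od e' 2 = 0 := by omega
      have y3 : od e' 3 = 0 := by omega
      have y4 : od e' 4 = 0 := by omega
      have y : ∀ j, od e' j = 0 := by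
        intro j
        fin_cases j
        · exact y0
        · exact y1
        · exact y2
        · exact y3
        · exact y4
      exact Or.inl ⟨z i, y i⟩
  · exact he i

lemma ty_eq' {x y : F} (h0 : x ≠ 0) (h1 : x - 1 ≠ 0) (h2 : y ≠ 0) (h3 : x + y ≠ 0)
    (hE : y ^ 2 + y = x ^ 3 - x ^ 2) (i : Fin 5) :
    XX x y (i + 1) * XX x y i ^ 2 = K4C.ty x y i := by
  fin_cases i
  · show -y / x ^ 2 * x ^ 2 = -y
    field_simp
  · show x * (x + y) / (y * (x - 1)) * (-y / x ^ 2) ^ 2 = y * (x + y) / (x ^ 3 * (x - 1))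
    field_simp
  · show y / (x + y) * (x * (x + y) / (y * (x - 1))) ^ 2 = x ^ 2 * (x + y) / ((x - 1) ^ 2 * y)
    field_simp
  · show (x - 1) / y * (y / (x + y)) ^ 2 = (x - 1) * y / (x + y) ^ 2
    field_simp
  · show x * ((x - 1) / y) ^ 2 = x * (x - 1) ^ 2 / y ^ 2
    field_simp

lemma tx_eq' (x y : F) (i : Fin 5) : XX x y i = K4C.tx x y i := by
  fin_cases i
  · rfl
  · rfl
  · show x * (x + y) / (y * (x - 1)) = x * (x + y) / ((x - 1) * y)
    rw [mul_comm y]
  · rfl
  · rfl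

lemma S3_iff {f z : F} (hz : z ≠ 1) (h : S3 f z) : K4C.S3 f z := by
  have h1 : 1 - z ≠ 0 := fun h => hz (by linear_combination -h)
  have h2 : z - 1 ≠ 0 := fun h => hz (by linear_combination h)
  rcases h with h | h | h | h | h | h
  · left; exact h
  · right; left; exact h
  · right; right; left; rw [h, one_div]
  · right; right; right; left; rw [h, one_div]
  · right; right; right; right; left; rw [h, one_div]
  · right; right; right; right; right
    rw [h]
    field_simp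
    ring

/-- the unit equation on `X_1(11)`, five rational cusps -/
theorem unit_eq' [CharZero k] {x y : F} (hE : y ^ 2 + y = x ^ 3 - x ^ 2) (hx : Transcendental k x)
    (e e' : Fin 5 → ℤ) (c c' : k) (hc : c ≠ 0) (hc' : c' ≠ 0)
    (h : algebraMap k F c * UE11.mon x y e + algebraMap k F c' * UE11.mon x y e' = 1) :
    (∃ a : k, algebraMap k F c * UE11.mon x y e = algebraMap k F a) ∨
      ∃ i : Fin 5, K4C.S3 (algebraMap k F c * UE11.mon x y e) (K4C.tx x y i) ∨
        K4C.S3 (algebraMap k F c * UE11.mon x y e) (K4C.ty x y i) := by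
  have hI : ∀ x y : F, y ^ 2 + y = x ^ 3 - x ^ 2 → Transcendental k x → Ind k x y := by
    intro x y hE hx a0 a1 a2 a3 a4 h0
    have hG : UE11.Gen k x y := ⟨hE, (UE11.Tr_iff x).mpr hx⟩
    exact UE11.Gen.ind hG h0
  have h0 := tr_ne hx
  have h1 := tr_ne1 hx
  have h2 := tr_y hE hx
  have h3 := tr_xy hE hx
  have ne1 : ∀ z : F, K4C.IsCR x y z → z ≠ 1 := by
    intro z hz h
    have := K4C.cr_ne_zero hE h0 h1 h2 h3 (K4C.isCR_one_sub hE h0 h1 h2 h3 hz)
    rw [h, sub_self] at this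
    exact this rfl
  rcases unit_eq bd hI hE hx e e' c c' hc hc' h with h' | ⟨i, h' | h'⟩
  · exact Or.inl h'
  · right
    refine ⟨i, Or.inl ?_⟩
    rw [tx_eq'] at h'
    exact S3_iff (ne1 _ (K4C.isCR_tx hE h0 h1 h2 h3 i)) h'
  · right
    refine ⟨i, Or.inr ?_⟩
    rw [ty_eq' h0 h1 h2 h3 hE] at h'
    exact S3_iff (ne1 _ (K4C.isCR_ty hE h0 h1 h2 h3 i)) h'

/-- the products of the four units are the monomials -/
lemma isMon_iff {x y : F} (h0 : x ≠ 0) (h1 : x - 1 ≠ 0) (h2 : y ≠ 0) (h3 : x + y ≠ 0) {f : F}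
    (hf : K4C.IsMon k x y f) : ∃ (c : k) (e : Fin 5 → ℤ), c ≠ 0 ∧
      f = algebraMap k F c * UE11.mon x y e := by
  obtain ⟨c, hc, a, b, d, e, rfl⟩ := hf
  refine ⟨c * (-1) ^ (b + d + e), ![a + 2 * b + 2 * d + 2 * e, b + d + e, 0, -e, b],
    mul_ne_zero hc (zpow_ne_zero _ (neg_ne_zero.mpr one_ne_zero)), ?_⟩
  have m := mon_eq h0 h1 h2 h3 ![a + 2 * b + 2 * d + 2 * e, b + d + e, 0, -e, b]
  have b1 : (qd ![a + 2 * b + 2 * d + 2 * e, b + d + e, 0, -e, b]).1 = a := by
    show a + 2 * b + 2 * d + 2 * e - 2 * (b + d + e) + 0 = a; omega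
  have b2 : (qd ![a + 2 * b + 2 * d + 2 * e, b + d + e, 0, -e, b]).2.1 = b := by
    show b - 0 = b; omega
  have b3 : (qd ![a + 2 * b + 2 * d + 2 * e, b + d + e, 0, -e, b]).2.2.1 = d := by
    show b + d + e - 0 + -e - b = d; omega
  have b4 : (qd ![a + 2 * b + 2 * d + 2 * e, b + d + e, 0, -e, b]).2.2.2 = e := by
    show 0 - -e = e; omega
  have b5 : (![a + 2 * b + 2 * d + 2 * e, b + d + e, 0, -e, b] : Fin 5 → ℤ) 1 = b + d + e := rfl
  rw [b1, b2, b3, b4, b5, mon_eq'] at m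
  rw [m, map_mul, map_sgn]
  have s : ((-1 : F) ^ (b + d + e)) * (-1) ^ (b + d + e) = 1 := by
    rw [← mul_zpow]; norm_num
  linear_combination (-algebraMap k F c * (x ^ a * (x - 1) ^ b * y ^ d * (x + y) ^ e)) * s

/-- (C1), one direction: if `f` and `1 - f` are products of the four units, then `f` is a constant
or a cross ratio of the points `x (kP)` -/
theorem isCR_of_isMon [CharZero k] {x y : F} (hE : y ^ 2 + y = x ^ 3 - x ^ 2)
    (hx : Transcendental k x) {f : F} (hf : K4C.IsMon k x y f) (hg : K4C.IsMon k x y (1 - f)) :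
    (∃ a : k, f = algebraMap k F a) ∨ K4C.IsCR x y f := by
  have h0 := tr_ne hx
  have h1 := tr_ne1 hx
  have h2 := tr_y hE hx
  have h3 := tr_xy hE hx
  obtain ⟨c, e, hc, hfe⟩ := isMon_iff h0 h1 h2 h3 hf
  obtain ⟨c', e', hc', hge⟩ := isMon_iff h0 h1 h2 h3 hg
  have h : algebraMap k F c * UE11.mon x y e + algebraMap k F c' * UE11.mon x y e' = 1 := by
    rw [← hfe, ← hge]; ring
  rcases unit_eq' hE hx e e' c c' hc hc' h with h' | ⟨i, h' | h'⟩
  · left; rw [hfe]; exact h'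
  · right
    rw [hfe]
    exact K4C.isCR_S3 hE h0 h1 h2 h3 (K4C.isCR_tx hE h0 h1 h2 h3 i) h'
  · right
    rw [hfe]
    exact K4C.isCR_S3 hE h0 h1 h2 h3 (K4C.isCR_ty hE h0 h1 h2 h3 i) h'

/-- (C1) for the honest units -/
theorem isCR_of_units [CharZero k] {x y : F} (hE : y ^ 2 + y = x ^ 3 - x ^ 2)
    (hx : Transcendental k x) {f : F} (hf0 : f ≠ 0) (hf1 : f ≠ 1) (h1 : f ∈ K4C.RR k x y)
    (h2 : f⁻¹ ∈ K4C.RR k x y) (h3 : (1 - f)⁻¹ ∈ K4C.RR k x y) :
    (∃ a : k, f = algebraMap k F a) ∨ K4C.IsCR x y f := by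
  have h4 : 1 - f ≠ 0 := fun h => hf1 (by linear_combination -h)
  exact isCR_of_isMon hE hx ((K4C.units_iff hE hx f).mp ⟨hf0, h1, h2⟩)
    ((K4C.units_iff hE hx (1 - f)).mp ⟨h4, Subalgebra.sub_mem _ (Subalgebra.one_mem _) h1, h3⟩)

end Pool.Agent.K4C.FC
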